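import Mathlib
import Pool.Agent.X83.FiidErgodic

/-!
# Factor-of-iid perfect matchings without factor-of-iid balanced orientations

A connected quasi-transitive `4`-regular graph with a factor-of-iid perfect matching, but without a
factor-of-iid Schreier decoration and without a factor-of-iid balanced orientation.
-/

namespace Pool.Agent.Results.MP_71d783_pr.MatchingNoOrientation

open MeasureTheory Pool.Agent.X83.FiidErgodic

/-- The law of iid uniform `[0,1]` labels on the vertices. -/
noncomputable def iid (V : Type) : Measure (V → unitInterval) :=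
  Measure.infinitePi (fun _ : V => (volume : Measure unitInterval))

/-- A decoration with values in `X` is a function `V → V → X`, read on adjacent pairs.  A factor
map is a measurable map from labels to decorations commuting with the automorphisms of `G`. -/
structure IsFactorMap {V X : Type} [MeasurableSpace X] (G : SimpleGraph V)
    (F : (V → unitInterval) → (V → V → X)) : Prop where
  measurable : Measurable F
  equivariant : ∀ (g : G ≃g G) (ω : V → unitInterval) (x y : V), G.Adj x y →
    F (fun v => ω (g.symm v)) x y = F ω (g.symm x) (g.symm y)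

/-- `M` (with `M x y = true` iff the edge `xy` belongs to it) is a perfect matching. -/
def IsPerfectMatching {V : Type} (G : SimpleGraph V) (M : V → V → Bool) : Prop :=
  (∀ x y, G.Adj x y → M y x = M x y) ∧ ∀ x, ∃! y, G.Adj x y ∧ M x y = true

/-- `O` (with `O x y = true` iff the edge `xy` is oriented from `x` to `y`) is a balanced
orientation: every vertex has out-degree `d` and in-degree `d`. -/
def IsBalanced {V : Type} (G : SimpleGraph V) (d : ℕ) (O : V → V → Bool) : Prop :=
  (∀ x y, G.Adj x y → O y x = !(O x y)) ∧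
  ∀ x, {y | G.Adj x y ∧ O x y = true}.ncard = d ∧ {y | G.Adj x y ∧ O x y = false}.ncard = d

/-- `D` is a Schreier decoration of `G` with `d` colours: `(D x y).2` is the colour of the edge
`xy`, `(D x y).1` tells whether it is oriented from `x` to `y`, and at every vertex each colour has
exactly one outgoing and exactly one incoming edge. -/
def IsSchreier {V : Type} {d : ℕ} (G : SimpleGraph V) (D : V → V → Bool × Fin d) : Prop :=
  (∀ x y, G.Adj x y → (D y x).2 = (D x y).2 ∧ (D y x).1 = !(D x y).1) ∧
  (∀ (x : V) (i : Fin d), (∃! y, G.Adj x y ∧ D x y = (true, i)) ∧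
    (∃! y, G.Adj x y ∧ D x y = (false, i)))

/-- `Aut(G)` has finitely many orbits on the vertices. -/
def QuasiTransitive {V : Type} (G : SimpleGraph V) : Prop :=
  ∃ R : Finset V, ∀ x : V, ∃ y ∈ R, ∃ g : G ≃g G, g y = x

/-! ### The graph -/

abbrev W := ℤ × Fin 4

/-- The partner of a vertex in the canonical perfect matching. -/
def partner (x : W) : W :=
  if (x.1 % 2 = 0 ∧ x.2 ≠ 0) ∨ (x.1 % 2 = 1 ∧ x.2 = 0) then (x.1 + 1, x.2) else (x.1 - 1, x.2)

lemma partner_partner (x : W) : partner (partner x) = x := by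
  obtain ⟨j, a⟩ := x
  unfold partner
  by_cases ha : a = 0
  · subst ha
    rcases Int.emod_two_eq_zero_or_one j with h | h
    · have h1 : (j - 1) % 2 = 1 := by omega
      simp [h, h1]
    · have h1 : (j + 1) % 2 = 0 := by omega
      simp [h, h1]
  · rcases Int.emod_two_eq_zero_or_one j with h | h
    · have h1 : (j + 1) % 2 = 1 := by omega
      simp [h, h1, ha]
    · have h1 : (j - 1) % 2 = 0 := by omega
      simp [h, h1, ha]

lemma partner_snd (x : W) : (partner x).2 = x.2 := by
  unfold partner; split_ifs <;> rfl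

lemma partner_fst (x : W) : (partner x).1 = x.1 + 1 ∨ (partner x).1 = x.1 - 1 := by
  unfold partner; split_ifs
  · exact Or.inl rfl
  · exact Or.inr rfl

lemma partner_fst_ne (x : W) : (partner x).1 ≠ x.1 := by
  rcases partner_fst x with h | h <;> omega

/-- Blocks `K₄` in a row, consecutive ones joined alternately by three edges and by one edge. -/
def G : SimpleGraph W where
  Adj x y := (x.1 = y.1 ∧ x.2 ≠ y.2) ∨ y = partner x
  symm := ⟨by
    rintro x y (⟨h1, h2⟩ | rfl)
    · exact Or.inl ⟨h1.symm, h2.symm⟩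
    · exact Or.inr (partner_partner x).symm⟩
  loopless := ⟨by
    rintro x (⟨_, h⟩ | h)
    · exact h rfl
    · exact partner_fst_ne x (congrArg Prod.fst h).symm⟩

lemma adj_partner (x : W) : G.Adj x (partner x) := Or.inr rfl

lemma adj_block (j : ℤ) (a b : Fin 4) (h : a ≠ b) : G.Adj (j, a) (j, b) := Or.inl ⟨rfl, h⟩

/-- The neighbours of `x`, indexed by `Fin 4`. -/
def nb (x : W) (b : Fin 4) : W := if b = x.2 then partner x else (x.1, b)

lemma nb_inj (x : W) : Function.Injective (nb x) := by
  intro a b h
  unfold nb at h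
  split_ifs at h with h1 h2 h2
  · rw [h1, h2]
  · exact absurd (congrArg Prod.fst h) (partner_fst_ne x)
  · exact absurd (congrArg Prod.fst h).symm (partner_fst_ne x)
  · exact congrArg Prod.snd h

lemma adj_iff_nb (x y : W) : G.Adj x y ↔ ∃ b, nb x b = y := by
  constructor
  · rintro (⟨h1, h2⟩ | rfl)
    · refine ⟨y.2, ?_⟩
      unfold nb
      rw [if_neg (Ne.symm h2)]
      exact Prod.ext h1 rfl
    · exact ⟨x.2, by unfold nb; rw [if_pos rfl]⟩
  · rintro ⟨b, rfl⟩
    unfold nb
    split_ifs with h
    · exact Or.inr rfl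
    · exact Or.inl ⟨rfl, fun h2 => h h2.symm⟩

lemma neighbor_eq (x : W) : G.neighborSet x = Set.range (nb x) := by
  ext y
  exact adj_iff_nb x y

lemma neighbor_card (x : W) : (G.neighborSet x).ncard = 2 * 2 := by
  rw [neighbor_eq, ← Set.image_univ, Set.ncard_image_of_injective _ (nb_inj x), Set.ncard_univ,
    Nat.card_fin]

/-! ### Automorphisms -/

/-- Translation by an even integer. -/
def shiftE (n : ℤ) : Equiv.Perm W where
  toFun x := (x.1 + 2 * n, x.2)
  invFun x := (x.1 - 2 * n, x.2)
  left_inv x := by simp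
  right_inv x := by simp

lemma partner_shift (n : ℤ) (x : W) : partner (shiftE n x) = shiftE n (partner x) := by
  obtain ⟨j, a⟩ := x
  have h : (j + 2 * n) % 2 = j % 2 := by omega
  unfold partner shiftE
  simp only [Equiv.coe_fn_mk, h]
  split_ifs
  · exact Prod.ext (by simp; ring) rfl
  · exact Prod.ext (by simp; ring) rfl

/-- The reflection. -/
def reflE : Equiv.Perm W where
  toFun x := (-1 - x.1, x.2)
  invFun x := (-1 - x.1, x.2)
  left_inv x := by simp
  right_inv x := by simp

lemma partner_refl (x : W) : partner (reflE x) = reflE (partner x) := by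
  obtain ⟨j, a⟩ := x
  unfold partner reflE
  simp only [Equiv.coe_fn_mk]
  by_cases ha : a = 0
  · subst ha
    rcases Int.emod_two_eq_zero_or_one j with h | h
    · have h1 : (-1 - j) % 2 = 1 := by omega
      simp [h, h1]; ring
    · have h1 : (-1 - j) % 2 = 0 := by omega
      simp [h, h1]; ring
  · rcases Int.emod_two_eq_zero_or_one j with h | h
    · have h1 : (-1 - j) % 2 = 1 := by omega
      simp [h, h1, ha]; ring
    · have h1 : (-1 - j) % 2 = 0 := by omega
      simp [h, h1, ha]; ring

lemma adj_of_perm (e : Equiv.Perm W) (h1 : ∀ x, partner (e x) = e (partner x))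
    (h2 : ∀ x y : W, (e x).1 = (e y).1 ↔ x.1 = y.1) (h3 : ∀ x : W, (e x).2 = x.2) (x y : W) :
    G.Adj (e x) (e y) ↔ G.Adj x y := by
  show (((e x).1 = (e y).1 ∧ (e x).2 ≠ (e y).2) ∨ e y = partner (e x)) ↔
    ((x.1 = y.1 ∧ x.2 ≠ y.2) ∨ y = partner x)
  rw [h1, h2, h3, h3, e.injective.eq_iff]

def shiftG (n : ℤ) : G ≃g G where
  toEquiv := shiftE n
  map_rel_iff' := by
    intro x y
    exact adj_of_perm (shiftE n) (partner_shift n) (fun x y => by simp [shiftE]) (fun x => rfl) x y

def reflG : G ≃g G where
  toEquiv := reflE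
  map_rel_iff' := by
    intro x y
    exact adj_of_perm reflE partner_refl (fun x y => by simp [reflE]) (fun x => rfl) x y

lemma quasi : QuasiTransitive G := by
  refine ⟨Finset.univ.image (fun p : Fin 2 × Fin 4 => ((p.1.val : ℤ), p.2)), ?_⟩
  rintro ⟨j, a⟩
  rcases Int.emod_two_eq_zero_or_one j with h | h
  · refine ⟨((0 : ℤ), a), Finset.mem_image.mpr ⟨(0, a), Finset.mem_univ _, rfl⟩, shiftG (j / 2), ?_⟩
    show ((0 : ℤ) + 2 * (j / 2), a) = (j, a)
    exact Prod.ext (by simp only; omega) rfl
  · refine ⟨((1 : ℤ), a), Finset.mem_image.mpr ⟨(1, a), Finset.mem_univ _, rfl⟩, shiftG (j / 2), ?_⟩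
    show ((1 : ℤ) + 2 * (j / 2), a) = (j, a)
    exact Prod.ext (by simp only; omega) rfl

lemma third : ∀ a b : Fin 4, ∃ c : Fin 4, a ≠ c ∧ b ≠ c := by decide

/-- The canonical matching consists of the edges without common neighbours. -/
lemma partner_iff (x y : W) (h : G.Adj x y) :
    y = partner x ↔ ∀ z, ¬ (G.Adj x z ∧ G.Adj y z) := by
  constructor
  · rintro rfl z ⟨h1, h2⟩
    rcases h1 with ⟨h1, h1'⟩ | h1
    · rcases h2 with ⟨h2, _⟩ | h2
      · exact partner_fst_ne x (h2.trans h1.symm)
      · rw [partner_partner] at h2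
        exact h1' (by rw [h2])
    · rw [h1] at h2
      exact G.loopless.irrefl _ h2
  · intro hz
    rcases h with ⟨h1, h2⟩ | h
    · exfalso
      obtain ⟨j, a⟩ := x
      obtain ⟨k, b⟩ := y
      simp only at h1 h2
      subst h1
      obtain ⟨c, hca, hcb⟩ := third a b
      exact hz (j, c) ⟨adj_block j a c hca, adj_block j b c hcb⟩
    · exact h

lemma aut_partner (g : G ≃g G) (x : W) : g (partner x) = partner (g x) := by
  have h1 : G.Adj (g x) (g (partner x)) := g.map_adj_iff.mpr (adj_partner x)
  rw [partner_iff _ _ h1]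
  rintro z ⟨h2, h3⟩
  obtain ⟨w, rfl⟩ := g.surjective z
  rw [g.map_adj_iff] at h2 h3
  exact (partner_iff x (partner x) (adj_partner x)).mp rfl w ⟨h2, h3⟩

lemma connected : G.Connected := by
  have hblock : ∀ (j : ℤ) (a b : Fin 4), G.Reachable (j, a) (j, b) := by
    intro j a b
    by_cases h : a = b
    · rw [h]
    · exact (adj_block j a b h).reachable
  have hstep : ∀ j : ℤ, G.Reachable (j, 0) (j + 1, 0) := by
    intro j
    rcases Int.emod_two_eq_zero_or_one j with h | h
    · have h1 : partner (j, 1) = (j + 1, 1) := by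
        unfold partner; simp [h]
      have h2 : G.Reachable (j, 1) (j + 1, 1) := by
        rw [← h1]; exact (adj_partner _).reachable
      exact (hblock j 0 1).trans (h2.trans (hblock _ 1 0))
    · have h1 : partner (j, 0) = (j + 1, 0) := by
        unfold partner; simp [h]
      rw [← h1]; exact (adj_partner _).reachable
  have hall : ∀ j : ℤ, G.Reachable (0, 0) (j, 0) := by
    intro j
    induction j using Int.induction_on with
    | zero => exact SimpleGraph.Reachable.refl _
    | succ n ih => exact ih.trans (hstep n)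
    | pred n ih =>
      have := hstep (-(n : ℤ) - 1)
      rw [sub_add_cancel] at this
      exact ih.trans this.symm
  have hall2 : ∀ v : W, G.Reachable (0, 0) v := by
    rintro ⟨j, a⟩
    exact (hall j).trans (hblock j 0 a)
  exact ⟨fun x y => (hall2 x).symm.trans (hall2 y)⟩

/-! ### Balanced orientations point in one direction -/

/-- The sign of an oriented edge. -/
def sg (O : W → W → Bool) (x y : W) : ℤ := if O x y = true then 1 else -1

lemma sg_anti {O : W → W → Bool} (hO : IsBalanced G 2 O) {x y : W} (h : G.Adj x y) :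
    sg O y x = - sg O x y := by
  unfold sg
  rw [hO.1 x y h]
  cases O x y <;> simp

lemma sum_zero {O : W → W → Bool} (hO : IsBalanced G 2 O) (x : W) :
    ∑ b, sg O x (nb x b) = 0 := by
  have hcount : ∀ c : Bool, {y | G.Adj x y ∧ O x y = c}.ncard
      = (Finset.univ.filter (fun b : Fin 4 => O x (nb x b) = c)).card := by
    intro c
    rw [← Finset.card_image_of_injective _ (nb_inj x), ← Set.ncard_coe_finset]
    congr 1
    ext y
    simp only [Finset.coe_image, Finset.coe_filter, Finset.mem_univ, true_and, Set.mem_image]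
    constructor
    · rintro ⟨h1, h2⟩
      obtain ⟨b, rfl⟩ := (adj_iff_nb x y).mp h1
      exact ⟨b, h2, rfl⟩
    · rintro ⟨b, h1, rfl⟩
      exact ⟨(adj_iff_nb x _).mpr ⟨b, rfl⟩, h1⟩
  have h1 := (hO.2 x).1
  have h2 := (hO.2 x).2
  rw [hcount] at h1 h2
  have h3 : ∀ b, sg O x (nb x b) = (if O x (nb x b) = true then 1 else 0)
      - (if O x (nb x b) = false then 1 else 0) := by
    intro b
    unfold sg
    cases O x (nb x b) <;> simp
  rw [Finset.sum_congr rfl (fun b _ => h3 b), Finset.sum_sub_distrib]
  rw [← Finset.sum_filter, ← Finset.sum_filter, Finset.sum_const, Finset.sum_const, h1, h2]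
  simp

lemma block_sum {O : W → W → Bool} (hO : IsBalanced G 2 O) (j : ℤ) :
    sg O (j, 0) (partner (j, 0)) + sg O (j, 1) (partner (j, 1)) +
      sg O (j, 2) (partner (j, 2)) + sg O (j, 3) (partner (j, 3)) = 0 := by
  have h0 := sum_zero hO (j, 0)
  have h1 := sum_zero hO (j, 1)
  have h2 := sum_zero hO (j, 2)
  have h3 := sum_zero hO (j, 3)
  rw [Fin.sum_univ_four] at h0 h1 h2 h3
  simp only [nb, Fin.isValue, if_true, show ((1 : Fin 4) = 0) = False by decide,
    show ((2 : Fin 4) = 0) = False by decide, show ((3 : Fin 4) = 0) = False by decide,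
    show ((0 : Fin 4) = 1) = False by decide, show ((2 : Fin 4) = 1) = False by decide,
    show ((3 : Fin 4) = 1) = False by decide, show ((0 : Fin 4) = 2) = False by decide,
    show ((1 : Fin 4) = 2) = False by decide, show ((3 : Fin 4) = 2) = False by decide,
    show ((0 : Fin 4) = 3) = False by decide, show ((1 : Fin 4) = 3) = False by decide,
    show ((2 : Fin 4) = 3) = False by decide, if_false] at h0 h1 h2 h3
  have a01 := sg_anti hO (adj_block j 0 1 (by decide))
  have a02 := sg_anti hO (adj_block j 0 2 (by decide))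
  have a03 := sg_anti hO (adj_block j 0 3 (by decide))
  have a12 := sg_anti hO (adj_block j 1 2 (by decide))
  have a13 := sg_anti hO (adj_block j 1 3 (by decide))
  have a23 := sg_anti hO (adj_block j 2 3 (by decide))
  linarith

lemma direction {O : W → W → Bool} (hO : IsBalanced G 2 O) (i : ℤ) :
    sg O (2 * i + 2, 0) (2 * i + 1, 0) = sg O (2 * i, 0) (2 * i - 1, 0) := by
  have hb0 := block_sum hO (2 * i)
  have hb1 := block_sum hO (2 * i + 1)
  have e0 : (2 * i) % 2 = 0 := by omega
  have e1 : (2 * i + 1) % 2 = 1 := by omega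
  have p00 : partner (2 * i, 0) = (2 * i - 1, 0) := by unfold partner; simp
  have p0 : ∀ a : Fin 4, a ≠ 0 → partner (2 * i, a) = (2 * i + 1, a) := by
    intro a ha; unfold partner; simp [ha]
  have p10 : partner (2 * i + 1, 0) = (2 * i + 2, 0) := by
    unfold partner; simp [e1]; ring
  have p1 : ∀ a : Fin 4, a ≠ 0 → partner (2 * i + 1, a) = (2 * i, a) := by
    intro a ha; unfold partner; simp [ha]
  rw [p00, p0 1 (by decide), p0 2 (by decide), p0 3 (by decide)] at hb0
  rw [p10, p1 1 (by decide), p1 2 (by decide), p1 3 (by decide)] at hb1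
  have adj : ∀ a : Fin 4, a ≠ 0 → G.Adj (2 * i, a) (2 * i + 1, a) := by
    intro a ha; rw [← p0 a ha]; exact adj_partner _
  have s1 := sg_anti hO (adj 1 (by decide))
  have s2 := sg_anti hO (adj 2 (by decide))
  have s3 := sg_anti hO (adj 3 (by decide))
  have s0 : sg O (2 * i + 2, 0) (2 * i + 1, 0) = - sg O (2 * i + 1, 0) (2 * i + 2, 0) := by
    apply sg_anti hO
    rw [← p10]; exact adj_partner _
  linarith

lemma direction_all {O : W → W → Bool} (hO : IsBalanced G 2 O) (i : ℤ) :
    sg O (2 * i, 0) (2 * i - 1, 0) = sg O (0, 0) (-1, 0) := by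
  induction i using Int.induction_on with
  | zero => simp
  | succ n ih =>
    have := direction hO n
    rw [ih] at this
    rw [← this]
    congr 1
    exact Prod.ext (by simp only; ring) rfl
  | pred n ih =>
    have := direction hO (-(n : ℤ) - 1)
    rw [← this, ← ih]
    congr 1
    · exact Prod.ext (by simp only; ring) rfl
    · exact Prod.ext (by simp only; ring) rfl

lemma sg_inj {O O' : W → W → Bool} {x y x' y' : W} (h : sg O x y = sg O' x' y') :
    O x y = O' x' y' := by
  unfold sg at h
  cases h1 : O x y <;> cases h2 : O' x' y' <;> simp [h1, h2] at h ⊢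

/-! ### No factor-of-iid balanced orientation -/

lemma no_balanced : ¬ ∃ F : (W → unitInterval) → (W → W → Bool),
    IsFactorMap G F ∧ ∀ᵐ ω ∂(iid W), IsBalanced G 2 (F ω) := by
  classical
  rintro ⟨F, hF, hae⟩
  change ∀ᵐ ω ∂(mu W), IsBalanced G 2 (F ω) at hae
  let A : Set (W → unitInterval) := {ω | F ω (0, 0) (-1, 0) = true}
  have hA : MeasurableSet A := by
    have h1 : Measurable (fun ω => F ω (0, 0) (-1, 0)) :=
      (measurable_pi_apply _).comp ((measurable_pi_apply _).comp hF.measurable)
    exact h1 (measurableSet_singleton true)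
  have hadj : G.Adj (0, 0) (-1, 0) := by
    have : partner (0, 0) = (-1, 0) := by unfold partner; simp
    rw [← this]; exact adj_partner _
  have hshift : ∀ (n : ℤ) (ω : W → unitInterval),
      F (fun v => ω (shiftE n v)) (0, 0) (-1, 0) = F ω (2 * n, 0) (2 * n - 1, 0) := by
    intro n ω
    have h := hF.equivariant (shiftG n).symm ω (0, 0) (-1, 0) hadj
    have e1 : (shiftG n).symm.symm (0, 0) = ((2 * n, 0) : W) := by
      show ((0 : ℤ) + 2 * n, (0 : Fin 4)) = (2 * n, 0)
      rw [zero_add]
    have e2 : (shiftG n).symm.symm (-1, 0) = ((2 * n - 1, 0) : W) := by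
      show ((-1 : ℤ) + 2 * n, (0 : Fin 4)) = (2 * n - 1, 0)
      exact Prod.ext (by simp only; ring) rfl
    rw [e1, e2] at h
    exact h
  have hrefl : ∀ (ω : W → unitInterval),
      F (fun v => ω (reflE v)) (0, 0) (-1, 0) = F ω (-1, 0) (0, 0) := by
    intro ω
    have h := hF.equivariant reflG.symm ω (0, 0) (-1, 0) hadj
    have e1 : reflG.symm.symm (0, 0) = ((-1, 0) : W) := by
      show ((-1 : ℤ) - 0, (0 : Fin 4)) = (-1, 0)
      rfl
    have e2 : reflG.symm.symm (-1, 0) = ((0, 0) : W) := by
      show ((-1 : ℤ) - (-1), (0 : Fin 4)) = (0, 0)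
      rfl
    rw [e1, e2] at h
    exact h
  have h01 := zero_one A hA (Set.range shiftE) (by
      rintro _ ⟨n, rfl⟩
      filter_upwards [hae] with ω hω
      have h1 := sg_inj (direction_all hω n)
      apply propext
      show F (fun v => ω (shiftE n v)) (0, 0) (-1, 0) = true ↔ F ω (0, 0) (-1, 0) = true
      rw [hshift n ω, h1])
    (by
      intro s
      obtain ⟨K, hK⟩ : ∃ K : ℕ, ∀ x ∈ s, x.1.natAbs < K := by
        refine ⟨s.sup (fun x => x.1.natAbs) + 1, fun x hx => ?_⟩
        exact Nat.lt_succ_of_le (Finset.le_sup (f := fun x : W => x.1.natAbs) hx)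
      refine ⟨fun n => shiftE ((K : ℤ) * n), fun n => ⟨_, rfl⟩, ?_⟩
      intro m n hmn x hx y hy hxy
      have h1 : x.1 + 2 * ((K : ℤ) * m) = y.1 + 2 * ((K : ℤ) * n) :=
        congrArg Prod.fst hxy
      have h2 := hK x hx
      have h3 := hK y hy
      have h4 : (x.1 - y.1).natAbs < 2 * K := by omega
      have h5 : x.1 - y.1 = 2 * K * ((n : ℤ) - m) := by linarith
      rw [h5, Int.natAbs_mul] at h4
      have h6 : 1 ≤ ((n : ℤ) - m).natAbs := by
        have : (n : ℤ) ≠ m := by exact_mod_cast hmn.symm
        omega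
      have h7 : (2 * (K : ℤ)).natAbs = 2 * K := by
        rw [Int.natAbs_mul]; simp
      rw [h7] at h4
      nlinarith)
  have hpres := (measurePreserving_comp (V := W) reflE reflE.injective).measure_preimage
    hA.nullMeasurableSet
  have hcompl : (fun (ω : W → unitInterval) v => ω (reflE v)) ⁻¹' A =ᵐ[mu W] (Aᶜ : Set _) := by
    filter_upwards [hae] with ω hω
    apply propext
    show F (fun v => ω (reflE v)) (0, 0) (-1, 0) = true ↔ ¬ (F ω (0, 0) (-1, 0) = true)
    rw [hrefl ω, hω.1 _ _ hadj]
    cases F ω (0, 0) (-1, 0) <;> simp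
  rw [measure_congr hcompl, prob_compl_eq_one_sub hA] at hpres
  rcases h01 with h | h
  · rw [h] at hpres; simp at hpres
  · rw [h] at hpres; simp at hpres

lemma balanced_of_schreier {V : Type} {d : ℕ} (G : SimpleGraph V) (D : V → V → Bool × Fin d)
    (h : IsSchreier G D) : IsBalanced G d (fun x y => (D x y).1) := by
  refine ⟨fun x y hxy => (h.1 x y hxy).2, fun x => ?_⟩
  have key : ∀ c : Bool, (∀ i, ∃! y, G.Adj x y ∧ D x y = (c, i)) →
      {y | G.Adj x y ∧ (D x y).1 = c}.ncard = d := by
    intro c hc
    choose f hf hu using hc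
    have hinj : Function.Injective f := by
      intro i j hij
      have h1 := (hf i).2
      have h2 := (hf j).2
      rw [hij, h2] at h1
      exact (congrArg Prod.snd h1).symm
    have hset : {y | G.Adj x y ∧ (D x y).1 = c} = Set.range f := by
      ext y
      constructor
      · rintro ⟨h1, h2⟩
        refine ⟨(D x y).2, ?_⟩
        exact (hu (D x y).2 y ⟨h1, Prod.ext h2 rfl⟩).symm
      · rintro ⟨i, rfl⟩
        exact ⟨(hf i).1, by rw [(hf i).2]⟩
    rw [hset, ← Set.image_univ, Set.ncard_image_of_injective _ hinj, Set.ncard_univ, Nat.card_fin]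
  exact ⟨key true (fun i => (h.2 x i).1), key false (fun i => (h.2 x i).2)⟩

/-- **Yes**: there is a connected, quasi-transitive, `2d`-regular graph (with `d = 2`) that has a
factor-of-iid perfect matching, but neither a factor-of-iid Schreier decoration nor a factor-of-iid
balanced orientation. -/
theorem result : ∃ (d : ℕ) (V : Type) (_ : Countable V) (G : SimpleGraph V),
    1 ≤ d ∧ G.Connected ∧ QuasiTransitive G ∧
    (∀ x, (G.neighborSet x).Finite ∧ (G.neighborSet x).ncard = 2 * d) ∧
    (∃ F : (V → unitInterval) → (V → V → Bool),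
      IsFactorMap G F ∧ ∀ᵐ ω ∂(iid V), IsPerfectMatching G (F ω)) ∧
    (¬ ∃ F : (V → unitInterval) → (V → V → Bool × Fin d),
      IsFactorMap G F ∧ ∀ᵐ ω ∂(iid V), IsSchreier G (F ω)) ∧
    (¬ ∃ F : (V → unitInterval) → (V → V → Bool),
      IsFactorMap G F ∧ ∀ᵐ ω ∂(iid V), IsBalanced G d (F ω)) := by
  refine ⟨2, W, inferInstance, G, by norm_num, connected, quasi, ?_, ?_, ?_, no_balanced⟩
  · intro x
    refine ⟨?_, neighbor_card x⟩
    rw [neighbor_eq]
    exact Set.finite_range _
  · refine ⟨fun _ x y => decide (y = partner x), ⟨measurable_const, ?_⟩,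
      Filter.Eventually.of_forall (fun _ => ⟨?_, ?_⟩)⟩
    · intro g ω x y _
      apply decide_eq_decide.mpr
      rw [← aut_partner, g.symm.injective.eq_iff]
    · intro x y _
      apply decide_eq_decide.mpr
      constructor
      · rintro rfl; rw [partner_partner]
      · rintro rfl; rw [partner_partner]
    · intro x
      refine ⟨partner x, ⟨adj_partner x, by simp⟩, ?_⟩
      rintro y ⟨_, hy⟩
      exact of_decide_eq_true hy
  · rintro ⟨F, hF, hae⟩
    apply no_balanced
    refine ⟨fun ω x y => (F ω x y).1, ⟨?_, ?_⟩, ?_⟩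
    · refine measurable_pi_lambda _ (fun x => measurable_pi_lambda _ (fun y => ?_))
      exact measurable_fst.comp
        ((measurable_pi_apply y).comp ((measurable_pi_apply x).comp hF.measurable))
    · intro g ω x y hxy
      exact congrArg Prod.fst (hF.equivariant g ω x y hxy)
    · filter_upwards [hae] with ω hω
      exact balanced_of_schreier G (F ω) hω

end Pool.Agent.Results.MP_71d783_pr.MatchingNoOrientation
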